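import Mathlib

/-! An MMPP whose time-stationary first event time does not dominate the event-stationary one. -/

namespace Pool.Agent.Results.MP_af8c33_pr.Q1

open Matrix Finset Nat

def l (i : Fin 16) : ℤ := if i.val < 8 then 1 else 0

def Q : Matrix (Fin 16) (Fin 16) ℝ := of fun i j => if j = i + 1 then 4 else if j = i then -4 else 0

def u : ℕ → List ℤ
  | 0 => List.replicate 16 1
  | k + 1 => List.ofFn fun i : Fin 16 => 4 * (u k).getD (i + 1).val 0 - (4 + l i) * (u k).getD i 0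

theorem Q_mul (v : Fin 16 → ℝ) (i : Fin 16) : (Q *ᵥ v) i = 4 * v (i + 1) - 4 * v i := by
  have h : ∀ j, Q i j = (if j = i + 1 then 4 else 0) - if j = i then 4 else 0 := fun j => by
    have : ∀ i : Fin 16, i + 1 ≠ i := by decide
    by_cases h : j = i + 1
    · simp [Q, h, this]
    · by_cases h2 : j = i <;> simp [Q, h, h2, (this i).symm]
  simp [mulVec, dotProduct, h, sub_mul]

theorem pw (k : ℕ) : ∀ i : Fin 16, (((Q - diagonal fun i => (l i : ℝ)) ^ k *ᵥ 1) i =
    ((u k).getD i 0 : ℤ)) ∧ |(u k).getD i 0| ≤ 9 ^ k := by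
  induction k with
  | zero => exact fun i => ⟨by fin_cases i <;> simp [u], by fin_cases i <;> simp [u]⟩
  | succ k ih =>
    intro i
    have h : (u (k + 1)).getD i 0 = 4 * (u k).getD (i + 1).val 0 - (4 + l i) * (u k).getD i 0 := by
      rw [u, List.getD_eq_getElem _ _ (by simp), List.getElem_ofFn]
    rw [h, _root_.pow_succ', ← mulVec_mulVec, sub_mulVec, Pi.sub_apply, Q_mul, mulVec_diagonal, (ih _).1,
      (ih _).1]
    refine ⟨by push_cast; ring, ?_⟩
    have h1 := abs_le.1 (ih i).2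
    have h2 := abs_le.1 (ih (i + 1)).2
    rw [abs_le, _root_.pow_succ, l]
    split_ifs <;> constructor <;> linarith

def s (k : ℕ) : ℤ := ∑ i : Fin 16, (1 - 2 * l i) * (u k).getD i 0

theorem num : ∑ k ∈ range 100, (3 ^ k / k ! * s k : ℚ) + 16 * (27 ^ 100 / 100 !) * 2 < 0 := by
  decide +kernel

theorem neg : (fun i => 1 - 2 * (l i : ℝ)) ⬝ᵥ
    NormedSpace.exp ((3 : ℝ) • (Q - diagonal fun i => (l i : ℝ))) *ᵥ 1 < 0 := by
  let _ := Matrix.linftyOpNormedRing (n := Fin 16) (α := ℝ)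
  let _ := Matrix.linftyOpNormedAlgebra (n := Fin 16) (R := ℝ) (α := ℝ)
  let ψ : Matrix (Fin 16) (Fin 16) ℝ →ₗ[ℝ] ℝ :=
    { toFun M := (fun i => 1 - 2 * (l i : ℝ)) ⬝ᵥ M *ᵥ 1
      map_add' _ _ := by rw [add_mulVec, dotProduct_add]
      map_smul' _ _ := by rw [smul_mulVec, dotProduct_smul]; rfl }
  have h := (NormedSpace.exp_series_hasSum_exp' (𝕂 := ℝ)
    ((3 : ℝ) • (Q - diagonal fun i => (l i : ℝ)))).map ψ ψ.continuous_of_finiteDimensional
  have h1 : ∀ k : ℕ, ψ ((k !⁻¹ : ℝ) • ((3 : ℝ) • (Q - diagonal fun i => (l i : ℝ))) ^ k) =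
      3 ^ k / k ! * s k := fun k => by
    rw [smul_pow, map_smul, map_smul, smul_eq_mul, smul_eq_mul, ← mul_assoc, inv_mul_eq_div, s]
    push_cast
    congr 1
    exact sum_congr (s₁ := univ) rfl fun i _ => congrArg ((1 - 2 * (l i : ℝ)) * ·) (pw k i).1
  simp only [Function.comp_def, h1] at h
  have h2 := hasSum_le (fun k => ?_) ((hasSum_nat_add_iff' 100).2 h)
    (hasSum_geometric_two.mul_left (16 * ((27 : ℝ) ^ 100 / (100 ! : ℕ))))
  · have h3 := (Rat.cast_lt (K := ℝ)).2 num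
    push_cast at h3
    exact ((sub_le_iff_le_add'.1 h2).trans_lt h3 :)
  · have h3 : (s (k + 100) : ℝ) ≤ 16 * 9 ^ (k + 100) := by
      have : s (k + 100) ≤ ∑ i : Fin 16, 9 ^ (k + 100) := sum_le_sum fun i _ => by
        have := abs_le.1 (pw (k + 100) i).2
        rw [l]
        split_ifs <;> linarith
      rw [sum_const, Finset.card_univ, Fintype.card_fin, nsmul_eq_mul] at this
      exact_mod_cast this
    have h4 : (100 ! : ℝ) * 54 ^ k ≤ (k + 100)! := by
      rw [add_comm]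
      exact_mod_cast (Nat.mul_le_mul_left _ (Nat.pow_le_pow_left (by norm_num) k)).trans
        Nat.factorial_mul_pow_le_factorial
    refine (mul_le_mul_of_nonneg_left h3 (by positivity)).trans ((mul_le_mul_of_nonneg_right
      (div_le_div_of_nonneg_left (by positivity) (by positivity) h4) (by positivity)).trans_eq ?_)
    rw [show (54 : ℝ) = 2 * 27 by norm_num, show (27 : ℝ) = 3 * 9 by norm_num]
    simp only [mul_pow, pow_add, one_div, inv_pow]
    field_simp

theorem result : ∃ (p : ℕ) (Q : Matrix (Fin p) (Fin p) ℝ) (l π : Fin p → ℝ) (t : ℝ),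
    (∀ i j, i ≠ j → 0 ≤ Q i j) ∧ (∀ i, ∑ j, Q i j = 0) ∧
    (∀ i j, Relation.ReflTransGen (fun a b => a ≠ b ∧ 0 < Q a b) i j) ∧ (∀ i, 0 ≤ l i) ∧ l ≠ 0 ∧
    (∀ i, 0 ≤ π i) ∧ π ᵥ* Q = 0 ∧ ∑ i, π i = 1 ∧ 0 ≤ t ∧
    π ⬝ᵥ NormedSpace.exp (t • (Q - diagonal l)) *ᵥ 1 <
      ((π ⬝ᵥ diagonal l *ᵥ 1)⁻¹ • π ᵥ* diagonal l) ⬝ᵥ NormedSpace.exp (t • (Q - diagonal l)) *ᵥ 1 := by
  refine ⟨16, Q, fun i => l i, fun _ => 1 / 16, 3, fun i j h => ?_, fun i => ?_, fun i j => ?_,
    fun i => ?_, fun h => by simpa [l] using congrFun h 0, fun _ => by norm_num, ?_, by simp,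
    by norm_num, ?_⟩
  · simp only [Q, of_apply, h.symm, if_false]
    split_ifs <;> norm_num
  · simpa [mulVec, dotProduct] using Q_mul 1 i
  · have h : ∀ n : ℕ, Relation.ReflTransGen (fun a b => a ≠ b ∧ 0 < Q a b) i (i + Fin.ofNat 16 n) :=
      fun n => by
      induction n with
      | zero => simpa using .refl
      | succ n ih =>
        have : Fin.ofNat 16 (n + 1) = Fin.ofNat 16 n + 1 := Fin.ext (by simp [Fin.val_add])
        rw [this, ← add_assoc]
        exact ih.tail ⟨by simp, by simp [Q]⟩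
    simpa using h (j - i).val
  · simp only [l]
    split_ifs <;> norm_num
  · ext j
    fin_cases j <;> simp +decide [vecMul, dotProduct, Q, Fin.sum_univ_succ]
  · have h := neg
    have h1 : (fun _ => 1 / 16 : Fin 16 → ℝ) ⬝ᵥ diagonal (fun i => (l i : ℝ)) *ᵥ 1 = 1 / 2 := by
      simp [dotProduct, mulVec_diagonal, Fin.sum_univ_succ, l]
      norm_num
    rw [h1]
    generalize NormedSpace.exp ((3 : ℝ) • (Q - diagonal fun i => (l i : ℝ))) *ᵥ 1 = v at h ⊢
    simp only [dotProduct, Pi.smul_apply, vecMul_diagonal, smul_eq_mul] at h ⊢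
    rw [← sub_neg, ← sum_sub_distrib]
    refine lt_of_eq_of_lt ?_ (mul_neg_of_pos_of_neg (by norm_num : (0 : ℝ) < 1 / 16) h)
    rw [mul_sum]
    exact sum_congr rfl fun i _ => by ring

end Pool.Agent.Results.MP_af8c33_pr.Q1
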