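import Mathlib

/-! The squared coefficient of variation of a stationary MMPP is at least one. -/

namespace Pool.Agent.Results.MP_af8c33_pr.Q2

open Matrix Finset

theorem result (p : ℕ) (Q : Matrix (Fin p) (Fin p) ℝ) (l π : Fin p → ℝ)
    (hQ : ∀ i j, i ≠ j → 0 ≤ Q i j) (hrow : ∀ i, ∑ j, Q i j = 0) (hl : ∀ i, 0 ≤ l i)
    (hπ : ∀ i, 0 ≤ π i) (hπQ : π ᵥ* Q = 0) (hπ1 : ∑ i, π i = 1)
    (hC : (Q - diagonal l).det ≠ 0) :
    1 ≤ (π ⬝ᵥ (Q - diagonal l) *ᵥ 1) * (π ⬝ᵥ (Q - diagonal l)⁻¹ *ᵥ 1) := by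
  set g := -((Q - diagonal l)⁻¹ *ᵥ 1) with hg
  have h1 : ∀ i, l i * g i = 1 + ∑ j, Q i j * (g j - g i) := fun i => by
    have h := congrFun (show (Q - diagonal l) *ᵥ g = -1 by
      rw [hg, mulVec_neg, mulVec_mulVec, mul_nonsing_inv _ hC.isUnit, one_mulVec]) i
    rw [sub_mulVec, Pi.sub_apply, mulVec_diagonal] at h
    simp only [mul_sub, sum_sub_distrib, ← sum_mul, hrow]
    simp only [mulVec, dotProduct, Pi.neg_apply, Pi.one_apply] at h
    linarith
  have h2 : ∀ i, 0 < g i := fun i => by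
    obtain ⟨k, -, hk⟩ := exists_min_image univ g ⟨i, mem_univ i⟩
    have h : 0 ≤ ∑ j, Q k j * (g j - g k) := sum_nonneg fun j _ => by
      rcases eq_or_ne k j with rfl | h
      · simp
      · exact mul_nonneg (hQ _ _ h) (sub_nonneg.2 (hk j (mem_univ j)))
    exact (pos_of_mul_pos_right (by linarith [h1 k] : 0 < l k * g k) (hl k)).trans_le
      (hk i (mem_univ i))
  have h3 : ∀ i, (g i)⁻¹ + ∑ j, Q i j * Real.log (g j) ≤ l i := fun i => by
    have h : ∑ j, Q i j * (Real.log (g j) - Real.log (g i)) * g i ≤ ∑ j, Q i j * (g j - g i) :=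
      sum_le_sum fun j _ => by
        rcases eq_or_ne i j with rfl | h
        · simp
        · rw [mul_assoc, ← Real.log_div (h2 j).ne' (h2 i).ne']
          refine mul_le_mul_of_nonneg_left ?_ (hQ _ _ h)
          have := mul_le_mul_of_nonneg_right
            (Real.log_le_sub_one_of_pos (div_pos (h2 j) (h2 i))) (h2 i).le
          rwa [sub_mul, div_mul_cancel₀ _ (h2 i).ne', one_mul] at this
    simp only [← sum_mul, mul_sub (Q i _) (Real.log _), sum_sub_distrib, hrow] at h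
    refine le_of_mul_le_mul_right ?_ (h2 i)
    rw [add_mul, inv_mul_cancel₀ (h2 i).ne']
    linarith [h1 i]
  have h4 : ∑ i, π i * (g i)⁻¹ ≤ ∑ i, π i * l i := by
    have h := sum_le_sum fun i (_ : i ∈ univ) => mul_le_mul_of_nonneg_left (h3 i) (hπ i)
    have h5 : ∑ i, π i * ∑ j, Q i j * Real.log (g j) = 0 := by
      change π ⬝ᵥ Q *ᵥ (fun j => Real.log (g j)) = 0
      rw [dotProduct_mulVec, hπQ, zero_dotProduct]
    simpa only [mul_add, sum_add_distrib, h5, add_zero] using h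
  have h5 := sum_sq_le_sum_mul_sum_of_sq_eq_mul univ (r := π) (f := fun i => π i * (g i)⁻¹)
    (g := fun i => π i * g i) (fun i _ => mul_nonneg (hπ i) (inv_pos.2 (h2 i)).le)
    (fun i _ => mul_nonneg (hπ i) (h2 i).le) fun i _ => by field_simp [(h2 i).ne']
  have h6 : π ⬝ᵥ (Q - diagonal l) *ᵥ 1 = -∑ i, π i * l i := by
    rw [sub_mulVec, dotProduct_sub, dotProduct_mulVec, hπQ]
    simp [dotProduct, mulVec_diagonal]
  have h7 : π ⬝ᵥ (Q - diagonal l)⁻¹ *ᵥ 1 = -∑ i, π i * g i := by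
    simp [hg, dotProduct]
  rw [h6, h7, neg_mul_neg]
  rw [hπ1, one_pow] at h5
  exact h5.trans (mul_le_mul_of_nonneg_right h4 (sum_nonneg fun i _ => mul_nonneg (hπ i) (h2 i).le))

end Pool.Agent.Results.MP_af8c33_pr.Q2
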